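import Pool.Agent.Q98.OC.Sum4

/-! # The octopus inequality from the inequality for five points -/

set_option autoImplicit false
set_option linter.unusedSimpArgs false

namespace Q98.OC

open Equiv Finset Q289.OC
open scoped InnerProductSpace

/-- the function on quadruples -/
noncomputable def FF {n : ℕ} (φ : Perm (Fin n) → ℝ) (i j k l : Fin n) : ℝ :=
  if dist4 i j k l then QQ φ i j k l else 0

section

variable {n : ℕ} (φ : Perm (Fin n) → ℝ) (o : Fin n)

lemma FF12 (k l : Fin n) : FF φ o o k l = 0 := by simp [FF, dist4]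
lemma FF13 (j l : Fin n) : FF φ o j o l = 0 := by simp [FF, dist4]
lemma FF14 (j k : Fin n) : FF φ o j k o = 0 := by simp [FF, dist4]
lemma FF23 (i l : Fin n) : FF φ i o o l = 0 := by simp [FF, dist4]
lemma FF24 (i k : Fin n) : FF φ i o k o = 0 := by simp [FF, dist4]
lemma FF34 (i j : Fin n) : FF φ i j o o = 0 := by simp [FF, dist4]

lemma A_bo (b : Fin n → ℝ) (C : ℝ) (g : Fin n → ℝ) :
    A (fun i => b i - if i = o then C else 0) g = A b g - C * g o := by
  simp only [A, sub_mul, sum_sub_distrib, ite_mul, zero_mul, sum_ite_eq', mem_univ, if_true]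

lemma A_zero (b : Fin n → ℝ) : A b (fun _ => 0) = 0 := by simp [A]

lemma A_constv (b : Fin n → ℝ) (x : ℝ) : A b (fun _ => x) = (∑ i, b i) * x := by
  simp only [A, sum_mul]

/-- expansion of the fourfold functional -/
lemma A4_bo (b : Fin n → ℝ) :
    A4 (fun i => b i - if i = o then (∑ i, b i) else 0) (FF φ) =
      A4 b (fun i j k l => FF φ i j k l - FF φ o j k l - FF φ i o k l - FF φ i j o l -
        FF φ i j k o) := by
  simp only [A4_sub]
  simp only [A4, A_bo, A_sub, A_mul, FF12, FF13, FF14, FF23, FF24, FF34, A_zero, A_constv]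
  ring

lemma A_nonpos {b : Fin n → ℝ} (hb : ∀ i, 0 ≤ b i) {g : Fin n → ℝ}
    (h : ∀ i, b i ≠ 0 → g i ≤ 0) : A b g ≤ 0 := by
  refine sum_nonpos fun i _ => ?_
  by_cases h0 : b i = 0
  · rw [h0, zero_mul]
  · exact mul_nonpos_of_nonneg_of_nonpos (hb i) (h i h0)

end

theorem octStm (h5 : FiveStm) : OctStm := by
  intro n W _ _ ρ hρ v o b hb hbo
  obtain ⟨h4, h5⟩ := h5 n W ρ hρ v
  set φ := mc ρ v with hφ
  set C := ∑ i, b i with hC
  set c : Fin n → ℝ := fun i => b i - if i = o then C else 0 with hc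
  have hc0 : ∑ i, c i = 0 := by
    simp only [hc, sum_sub_distrib, sum_ite_eq', mem_univ, if_true, hC, sub_self]
  have hbne : ∀ i, b i ≠ 0 → i ≠ o := by
    rintro i hi rfl
    exact hi hbo
  have hFF : ∀ i j k l, 0 ≤ FF φ i j k l := by
    intro i j k l
    unfold FF
    split_ifs with h
    · exact h4 i j k l h
    · exact le_rfl
  -- the fourfold sum is nonpositive
  have h6 : A4 c (FF φ) ≤ 0 := by
    rw [hc, A4_bo]
    refine A_nonpos hb fun i hi => A_nonpos hb fun j hj => A_nonpos hb fun k hk =>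
      A_nonpos hb fun l hl => ?_
    show FF φ i j k l - FF φ o j k l - FF φ i o k l - FF φ i j o l - FF φ i j k o ≤ 0
    have hi := hbne i hi
    have hj := hbne j hj
    have hk := hbne k hk
    have hl := hbne l hl
    by_cases hd : dist4 i j k l
    · have h7 := h5 o i j k l hd (Ne.symm hi) (Ne.symm hj) (Ne.symm hk) (Ne.symm hl)
      obtain ⟨d1, d2, d3, d4, d5, d6⟩ := hd
      have e0 : FF φ i j k l = QQ φ i j k l := if_pos ⟨d1, d2, d3, d4, d5, d6⟩
      have e1 : FF φ o j k l = QQ φ o j k l :=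
        if_pos ⟨Ne.symm hj, Ne.symm hk, Ne.symm hl, d4, d5, d6⟩
      have e2 : FF φ i o k l = QQ φ i o k l :=
        if_pos ⟨hi, d2, d3, Ne.symm hk, Ne.symm hl, d6⟩
      have e3 : FF φ i j o l = QQ φ i j o l := if_pos ⟨d1, hi, d3, hj, d5, Ne.symm hl⟩
      have e4 : FF φ i j k o = QQ φ i j k o := if_pos ⟨d1, d2, hi, d4, hj, hk⟩
      rw [e0, e1, e2, e3, e4]
      linarith
    · have e0 : FF φ i j k l = 0 := if_neg hd
      have e1 := hFF o j k l
      have e2 := hFF i o k l
      have e3 := hFF i j o l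
      have e4 := hFF i j k o
      rw [e0]
      linarith
  have h7 := sum4 c hρ v hc0
  have hL : ∑ i, ∑ j, ∑ k, ∑ l,
      (if dist4 i j k l then c i * c j * c k * c l * QQ φ i j k l else 0) = A4 c (FF φ) := by
    simp only [A4, A, mul_sum, FF]
    refine sum_congr rfl fun i _ => sum_congr rfl fun j _ => sum_congr rfl fun k _ =>
      sum_congr rfl fun l _ => ?_
    split_ifs
    · ring
    · ring
  rw [← hφ, hL] at h7
  have hS : ∑ i, ∑ j, c i * c j * φ (swap i j) = A2 c fun i j => φ (swap i j) := by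
    simp only [A2, A, mul_sum]
    exact sum_congr rfl fun i _ => sum_congr rfl fun j _ => by ring
  rw [hS] at h7
  set S := A2 c fun i j => φ (swap i j) with hSd
  have hS0 : 0 ≤ S := by
    have h8 : 0 ≤ ∑ i, c i ^ 2 := sum_nonneg fun i _ => sq_nonneg _
    have h9 : 0 ≤ 12 * (∑ i, c i ^ 2) * S := by
      have : 0 ≤ 6 * ‖∑ i, ∑ j, (c i * c j) • ρ (swap i j) v‖ ^ 2 := by positivity
      linarith
    rcases h8.eq_or_lt with h10 | h10
    · have h11 : ∀ i, c i = 0 := by
        intro i
        have := (sum_eq_zero_iff_of_nonneg fun i _ => sq_nonneg (c i)).1 h10.symm i (mem_univ i)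
        exact pow_eq_zero_iff (two_ne_zero) |>.1 this
      rw [hSd]
      simp [A2, A, h11]
    · exact nonneg_of_mul_nonneg_right h9 (by positivity)
  have hD : A2 c (fun i j => DD ρ v i j) = -S := by
    have e : (fun i j => DD ρ v i j) = fun i j => φ 1 - φ (swap i j) := rfl
    rw [e]
    simp only [A2, A_sub, A_const c hc0]
    rw [hSd, A2]
    ring
  have hsym : ∀ i, DD ρ v i o = DD ρ v o i := by
    intro i
    unfold DD
    rw [swap_comm]
  have hoo : DD ρ v o o = 0 := by
    unfold DD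
    rw [ss, sub_self]
  have hD2 : A2 c (fun i j => DD ρ v i j) = A2 b (fun i j => DD ρ v i j) -
      2 * C * A b (fun i => DD ρ v o i) := by
    simp only [A2, hc, A_bo, A_sub, A_mul, hoo, hsym]
    ring
  have e1 : ∑ i, ∑ j, b i * b j * DD ρ v i j = A2 b (fun i j => DD ρ v i j) := by
    simp only [A2, A, mul_sum]
    exact sum_congr rfl fun i _ => sum_congr rfl fun j _ => by ring
  have e2 : ∑ i, b i * DD ρ v o i = A b (fun i => DD ρ v o i) := rfl
  rw [e1, e2]
  linarith

end Q98.OC
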