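import Pool.Agent.Q289.OC.Stm
import Pool.Agent.Y998.ST.Exp

/-! # Total variation from the return probability -/

set_option autoImplicit false

namespace Q98.OC

open Equiv Finset Q289.OC

variable {n : ℕ}

lemma ipGen_symm (c : Fin n → Fin n → ℝ) (σ τ : Perm (Fin n)) :
    ipGen c σ τ = ipGen c τ σ := by
  simp only [ipGen, Matrix.of_apply]
  congr 1
  refine sum_congr rfl fun u _ => sum_congr rfl fun v _ => ?_
  have h1 : (τ = σ * swap u v) ↔ (σ = τ * swap u v) := by
    constructor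
    · rintro rfl; rw [mul_assoc, swap_mul_self, mul_one]
    · rintro rfl; rw [mul_assoc, swap_mul_self, mul_one]
  simp only [h1, eq_comm (a := σ) (b := τ)]

lemma ipGen_row (c : Fin n → Fin n → ℝ) (σ : Perm (Fin n)) : ∑ τ, ipGen c σ τ = 0 := by
  simp only [ipGen, Matrix.of_apply]
  rw [← mul_sum]
  have h : ∑ τ : Perm (Fin n), ∑ u, ∑ v,
      c u v * ((if τ = σ * swap u v then (1 : ℝ) else 0) - (if τ = σ then 1 else 0)) = 0 := by
    rw [sum_comm]
    refine sum_eq_zero fun u _ => ?_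
    rw [sum_comm]
    refine sum_eq_zero fun v _ => ?_
    rw [← mul_sum, sum_sub_distrib]
    simp
  rw [h, mul_zero]

section expo

variable {S : Type} [Fintype S] [DecidableEq S] {Q : Matrix S S ℝ}

open scoped Matrix.Norms.Operator in
lemma exp_symm (hQ : ∀ x y, Q x y = Q y x) (t : ℝ) (x y : S) :
    NormedSpace.exp (t • Q) x y = NormedSpace.exp (t • Q) y x := by
  have h1 : (t • Q).transpose = t • Q := by
    ext x y
    simp only [Matrix.transpose_apply, Matrix.smul_apply, hQ x y]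
  have h2 := Matrix.exp_transpose (t • Q)
  rw [h1] at h2
  conv_lhs => rw [h2]
  rfl

lemma pow_row (hQ : ∀ x, ∑ y, Q x y = 0) (m : ℕ) (x : S) : ∑ y, (Q ^ (m + 1)) x y = 0 := by
  rw [pow_succ]
  simp only [Matrix.mul_apply]
  rw [sum_comm]
  refine sum_eq_zero fun y _ => ?_
  rw [← mul_sum, hQ, mul_zero]

lemma exp_row (hQ : ∀ x, ∑ y, Q x y = 0) (t : ℝ) (x : S) :
    ∑ y, NormedSpace.exp (t • Q) x y = 1 := by
  have h1 : HasSum (fun m : ℕ => ∑ y, t ^ m / (m.factorial : ℝ) * (Q ^ m) x y)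
      (∑ y, Pool.Agent.Y998.ST.E Q t x y) :=
    hasSum_sum fun y _ => Pool.Agent.Y998.ST.E_hasSum Q t x y
  have h2 : HasSum (fun m : ℕ => ∑ y, t ^ m / (m.factorial : ℝ) * (Q ^ m) x y) 1 := by
    have h3 : (fun m : ℕ => ∑ y, t ^ m / (m.factorial : ℝ) * (Q ^ m) x y) =
        fun m : ℕ => if m = 0 then 1 else 0 := by
      funext m
      rw [← mul_sum]
      cases m with
      | zero => simp [Matrix.one_apply]
      | succ m => rw [pow_row hQ, mul_zero, if_neg (Nat.succ_ne_zero m)]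
    rw [h3]
    exact hasSum_ite_eq 0 1
  exact h1.unique h2

end expo

theorem tvStm : TVStm := by
  intro n c t hc hs ht σ
  set Q := ipGen c with hQ
  have hsym : ∀ x y, Q x y = Q y x := ipGen_symm c
  have hrow : ∀ x, ∑ y, Q x y = 0 := ipGen_row c
  set N : ℝ := (n.factorial : ℝ) with hN
  have hN0 : 0 < N := by rw [hN]; exact_mod_cast Nat.factorial_pos n
  have hcard : (Fintype.card (Perm (Fin n)) : ℝ) = N := by
    rw [Fintype.card_perm, Fintype.card_fin]
  set P : Perm (Fin n) → Perm (Fin n) → ℝ := fun x y => NormedSpace.exp (t • Q) x y with hP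
  have h1 : ∑ τ, P σ τ = 1 := exp_row hrow t σ
  have h2 : ∑ τ, P σ τ ^ 2 = NormedSpace.exp ((2 * t) • Q) σ σ := by
    have h3 := Pool.Agent.Y998.ST.E_add Q t t
    have h4 : NormedSpace.exp ((2 * t) • Q) σ σ =
        (NormedSpace.exp (t • Q) * NormedSpace.exp (t • Q)) σ σ := by
      rw [two_mul]
      exact congrFun (congrFun h3 σ) σ
    rw [h4, Matrix.mul_apply]
    refine sum_congr rfl fun τ _ => ?_
    rw [sq]
    simp only [hP]
    rw [exp_symm hsym t τ σ]
  have h3 : (∑ τ, |P σ τ - 1 / N|) ^ 2 ≤ N * ∑ τ, (P σ τ - 1 / N) ^ 2 := by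
    have h4 := Finset.sum_mul_sq_le_sq_mul_sq (Finset.univ : Finset (Perm (Fin n)))
      (fun _ => (1 : ℝ)) (fun τ => |P σ τ - 1 / N|)
    simp only [one_mul, one_pow, sq_abs, sum_const, card_univ, nsmul_eq_mul, mul_one] at h4
    rwa [hcard] at h4
  have h4 : ∑ τ, (P σ τ - 1 / N) ^ 2 = NormedSpace.exp ((2 * t) • Q) σ σ - 1 / N := by
    have h5 : ∀ τ, (P σ τ - 1 / N) ^ 2 = P σ τ ^ 2 - 2 / N * P σ τ + (1 / N) ^ 2 := by
      intro τ; ring
    simp only [h5, sum_add_distrib, sum_sub_distrib]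
    rw [h2, ← mul_sum, h1]
    simp only [sum_const, card_univ, nsmul_eq_mul]
    rw [hcard]
    field_simp
    ring
  rw [h4] at h3
  have h5 : N * (NormedSpace.exp ((2 * t) • Q) σ σ - 1 / N) =
      N * NormedSpace.exp ((2 * t) • Q) σ σ - 1 := by
    field_simp
  rw [h5] at h3
  calc ((1 / 2 : ℝ) * ∑ τ, |NormedSpace.exp (t • Q) σ τ - 1 / N|) ^ 2
      = 1 / 4 * (∑ τ, |P σ τ - 1 / N|) ^ 2 := by simp only [hP]; ring
    _ ≤ 1 / 4 * (N * NormedSpace.exp ((2 * t) • Q) σ σ - 1) := by linarith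

end Q98.OC
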