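import Pool.Agent.Q289.OC.Stm

/-! # The algebraic identity behind the octopus inequality -/

set_option autoImplicit false
set_option linter.unusedSimpArgs false

namespace Q98.OC

open Equiv Finset Q289.OC
open scoped InnerProductSpace

section A

variable {n : ℕ} (c : Fin n → ℝ)

/-- the functional given by the weights `c` -/
noncomputable def A (g : Fin n → ℝ) : ℝ := ∑ i, c i * g i

lemma A_add (f g : Fin n → ℝ) : A c (fun i => f i + g i) = A c f + A c g := by
  simp only [A, mul_add, sum_add_distrib]

lemma A_sub (f g : Fin n → ℝ) : A c (fun i => f i - g i) = A c f - A c g := by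
  simp only [A, mul_sub, sum_sub_distrib]

lemma A_mul (x : ℝ) (g : Fin n → ℝ) : A c (fun i => x * g i) = x * A c g := by
  simp only [A, mul_sum]
  exact sum_congr rfl fun i _ => by ring

lemma A_mul' (x : ℝ) (g : Fin n → ℝ) : A c (fun i => g i * x) = A c g * x := by
  simp only [A, sum_mul]
  exact sum_congr rfl fun i _ => by ring

lemma A_const (h : ∑ i, c i = 0) (x : ℝ) : A c (fun _ => x) = 0 := by
  simp only [A, ← sum_mul, h, zero_mul]

lemma A_comm (F : Fin n → Fin n → ℝ) :
    A c (fun i => A c fun j => F i j) = A c (fun j => A c fun i => F i j) := by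
  simp only [A, mul_sum]
  rw [sum_comm]
  exact sum_congr rfl fun i _ => sum_congr rfl fun j _ => by ring

/-- Kronecker delta -/
noncomputable def de (i j : Fin n) : ℝ := if i = j then 1 else 0

lemma A_de (i : Fin n) (g : Fin n → ℝ) : A c (fun j => de i j * g j) = c i * g i := by
  simp only [A, de]
  rw [sum_eq_single i]
  · simp
  · intro j _ hj
    rw [if_neg (Ne.symm hj)]; ring
  · intro h; exact absurd (mem_univ i) h

end A

section phi

variable {n : ℕ} (φ : Perm (Fin n) → ℝ)

/-- a three-cycle -/
noncomputable def y3 (a b c : Fin n) : ℝ :=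
  if a ≠ b ∧ a ≠ c ∧ b ≠ c then φ (swap a b * swap b c) else 0

lemma y3_pos {a b c : Fin n} (h1 : a ≠ b) (h2 : a ≠ c) (h3 : b ≠ c) :
    y3 φ a b c = φ (swap a b * swap b c) := if_pos ⟨h1, h2, h3⟩

lemma cyc {a b c : Fin n} (h1 : a ≠ b) (h2 : a ≠ c) (h3 : b ≠ c) :
    swap a b * swap b c = swap b c * swap c a := by
  ext x
  simp only [Perm.mul_apply]
  by_cases ha : x = a
  · subst ha
    rw [swap_apply_of_ne_of_ne h1 h2, swap_apply_left, swap_apply_right, swap_apply_right]
  by_cases hb : x = b
  · subst hb
    rw [swap_apply_left, swap_apply_of_ne_of_ne (Ne.symm h2) (Ne.symm h3),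
      swap_apply_of_ne_of_ne h3 (Ne.symm h1), swap_apply_left]
  by_cases hc : x = c
  · subst hc
    rw [swap_apply_right, swap_apply_right, swap_apply_left,
      swap_apply_of_ne_of_ne h1 h2]
  · rw [swap_apply_of_ne_of_ne hb hc, swap_apply_of_ne_of_ne ha hb,
      swap_apply_of_ne_of_ne hc ha, swap_apply_of_ne_of_ne hb hc]

variable (hi : ∀ g, φ g⁻¹ = φ g)

include hi

lemma inv2 (a b c d : Fin n) : φ (swap a b * swap c d) = φ (swap c d * swap a b) := by
  rw [← hi (swap a b * swap c d), mul_inv_rev, swap_inv, swap_inv]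

/-- all products of two transpositions of three points agree -/
lemma all6 {a b c : Fin n} (h1 : a ≠ b) (h2 : a ≠ c) (h3 : b ≠ c) :
    φ (swap b c * swap c a) = φ (swap a b * swap b c) ∧
    φ (swap c a * swap a b) = φ (swap a b * swap b c) ∧
    φ (swap c b * swap b a) = φ (swap a b * swap b c) ∧
    φ (swap b a * swap a c) = φ (swap a b * swap b c) ∧
    φ (swap a c * swap c b) = φ (swap a b * swap b c) := by
  have e1 : φ (swap b c * swap c a) = φ (swap a b * swap b c) := by rw [cyc h1 h2 h3]
  have e2 : φ (swap c a * swap a b) = φ (swap a b * swap b c) := by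
    rw [← cyc h3 (Ne.symm h1) (Ne.symm h2), e1]
  refine ⟨e1, e2, ?_, ?_, ?_⟩
  · rw [inv2 φ hi, swap_comm b a, swap_comm c b]
  · rw [inv2 φ hi, swap_comm b a, swap_comm a c, e2]
  · rw [inv2 φ hi, swap_comm a c, swap_comm c b, e1]

omit hi in
lemma ss (a : Fin n) : swap a a = (1 : Perm (Fin n)) := swap_self a

/-- the pointwise identity -/
lemma pointwise (i j k l : Fin n) :
    (if dist4 i j k l then QQ φ i j k l else 0) =
      2 * φ 1 + 2 * (φ (swap i j * swap k l) + φ (swap i k * swap j l) + φ (swap i l * swap j k)) -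
      2 * (y3 φ i j k + y3 φ i j l + y3 φ i k l + y3 φ j k l) -
      (de i j * (2 * φ (swap k l) + 2 * φ 1) + de k l * (2 * φ (swap i j) + 2 * φ 1) +
        de i k * (2 * φ (swap j l) + 2 * φ 1) + de j l * (2 * φ (swap i k) + 2 * φ 1) +
        de i l * (2 * φ (swap j k) + 2 * φ 1) + de j k * (2 * φ (swap i l) + 2 * φ 1)) +
      4 * φ 1 * (de i j * de j k + de i j * de j l + de i k * de k l + de j k * de k l) := by
  rcases eq_or_ne i j with rfl | hij
  · rcases eq_or_ne i k with rfl | hik
    · rcases eq_or_ne i l with rfl | hil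
      · simp [-swap_self, ss, dist4, de, y3]; ring
      · simp [-swap_self, ss, dist4, de, y3, hil, hil.symm]; ring
    · rcases eq_or_ne i l with rfl | hil
      · simp [-swap_self, ss, dist4, de, y3, hik, hik.symm]
        rw [swap_comm k i]; ring
      · rcases eq_or_ne k l with rfl | hkl
        · simp [-swap_self, ss, dist4, de, y3, hik, hik.symm]; ring
        · obtain ⟨e1, e2, e3, e4, e5⟩ := all6 φ hi hik hil hkl
          simp [-swap_self, ss, dist4, de, y3, hik, hik.symm, hil, hil.symm, hkl, hkl.symm]
          have f1 : φ (swap i k * swap i l) = φ (swap i k * swap k l) := by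
            rw [swap_comm i k, e4, swap_comm i k]
          have f2 : φ (swap i l * swap i k) = φ (swap i k * swap k l) := by
            rw [swap_comm i l, e2]
          rw [f1, f2]; ring
  · rcases eq_or_ne i k with rfl | hik
    · rcases eq_or_ne i l with rfl | hil
      · simp [-swap_self, ss, dist4, de, y3, hij, hij.symm]
        rw [swap_comm j i]; ring
      · rcases eq_or_ne j l with rfl | hjl
        · simp [-swap_self, ss, dist4, de, y3, hij, hij.symm, swap_comm j i]; ring
        · obtain ⟨e1, e2, e3, e4, e5⟩ := all6 φ hi hij hil hjl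
          simp [-swap_self, ss, dist4, de, y3, hij, hij.symm, hil, hil.symm, hjl, hjl.symm]
          have f1 : φ (swap i j * swap i l) = φ (swap i j * swap j l) := by
            rw [swap_comm i j, e4, swap_comm i j]
          have f2 : φ (swap i l * swap j i) = φ (swap i j * swap j l) := by
            rw [swap_comm i l, swap_comm j i, e2]
          have f3 : φ (swap j i * swap i l) = φ (swap i j * swap j l) := e4
          rw [f1, f2, f3]; ring
    · rcases eq_or_ne i l with rfl | hil
      · rcases eq_or_ne j k with rfl | hjk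
        · simp [-swap_self, ss, dist4, de, y3, hij, hij.symm, swap_comm j i]; ring
        · obtain ⟨e1, e2, e3, e4, e5⟩ := all6 φ hi hij hik hjk
          simp [-swap_self, ss, dist4, de, y3, hij, hij.symm, hik, hik.symm, hjk, hjk.symm]
          have f1 : φ (swap i j * swap k i) = φ (swap i j * swap j k) := by
            rw [swap_comm i j, swap_comm k i, e4, swap_comm i j]
          have f2 : φ (swap i k * swap j i) = φ (swap i j * swap j k) := by
            rw [swap_comm i k, swap_comm j i, e2]
          have f3 : φ (swap j k * swap k i) = φ (swap i j * swap j k) := e1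
          rw [f1, f2, f3]; ring
      · rcases eq_or_ne j k with rfl | hjk
        · rcases eq_or_ne j l with rfl | hjl
          · simp [-swap_self, ss, dist4, de, y3, hij, hij.symm]; ring
          · simp [-swap_self, ss, dist4, de, y3, hij, hij.symm, hil, hil.symm, hjl, hjl.symm]; ring
        · rcases eq_or_ne j l with rfl | hjl
          · obtain ⟨e1, e2, e3, e4, e5⟩ := all6 φ hi hij hik hjk
            simp [-swap_self, ss, dist4, de, y3, hij, hij.symm, hik, hik.symm, hjk, hjk.symm]
            have f1 : φ (swap i j * swap k j) = φ (swap i j * swap j k) := by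
              rw [swap_comm k j]
            have f2 : φ (swap i k * swap k j) = φ (swap i j * swap j k) := e5
            rw [f1, f2]; ring
          · rcases eq_or_ne k l with rfl | hkl
            · obtain ⟨e1, e2, e3, e4, e5⟩ := all6 φ hi hij hik hjk
              simp [-swap_self, ss, dist4, de, y3, hij, hij.symm, hik, hik.symm, hjk, hjk.symm]
              have f0 : φ (swap i k * swap j k) = φ (swap i k * swap k j) := by
                rw [swap_comm j k]
              have f1 : φ (swap i k * swap j k) = φ (swap i j * swap j k) := f0.trans e5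
              rw [f1]; ring
            · simp [-swap_self, ss, dist4, de, y3, QQ, hij, hik, hil, hjk, hjl, hkl]

end phi

section main

variable {n : ℕ} (c : Fin n → ℝ)

/-- the fourfold functional -/
noncomputable def A4 (F : Fin n → Fin n → Fin n → Fin n → ℝ) : ℝ :=
  A c fun i => A c fun j => A c fun k => A c fun l => F i j k l

lemma A4_add (F H : Fin n → Fin n → Fin n → Fin n → ℝ) :
    A4 c (fun i j k l => F i j k l + H i j k l) = A4 c F + A4 c H := by
  simp only [A4, A_add]

lemma A4_sub (F H : Fin n → Fin n → Fin n → Fin n → ℝ) :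
    A4 c (fun i j k l => F i j k l - H i j k l) = A4 c F - A4 c H := by
  simp only [A4, A_sub]

lemma A4_mul (x : ℝ) (F : Fin n → Fin n → Fin n → Fin n → ℝ) :
    A4 c (fun i j k l => x * F i j k l) = x * A4 c F := by
  simp only [A4, A_mul]

/-- the twofold functional -/
noncomputable def A2 (h : Fin n → Fin n → ℝ) : ℝ := A c fun i => A c fun j => h i j

lemma d_ij (h : Fin n → Fin n → ℝ) :
    A4 c (fun i j k l => de i j * h k l) = A c c * A2 c h := by
  have h1 : A4 c (fun i j k l => de i j * h k l) = A c fun i => A c fun j => de i j * A2 c h := by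
    simp only [A4, A2, A_mul]
  rw [h1]
  have h2 : ∀ i, A c (fun j => de i j * A2 c h) = c i * A2 c h := fun i =>
    A_de c i (fun _ => A2 c h)
  simp only [h2, A_mul']

lemma d_kl (h : Fin n → Fin n → ℝ) :
    A4 c (fun i j k l => de k l * h i j) = A c c * A2 c h := by
  have h2 : ∀ i j k, A c (fun l => de k l * h i j) = c k * h i j := fun i j k =>
    A_de c k (fun _ => h i j)
  simp only [A4, A2, h2, A_mul', A_mul]

lemma d_ik (h : Fin n → Fin n → ℝ) :
    A4 c (fun i j k l => de i k * h j l) = A c c * A2 c h := by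
  have h1 : A4 c (fun i j k l => de i k * h j l) =
      A c fun i => A c fun j => A c fun k => de i k * A c fun l => h j l := by
    simp only [A4, A_mul]
  rw [h1]
  have h2 : ∀ i j, A c (fun k => de i k * A c fun l => h j l) = c i * A c fun l => h j l :=
    fun i j => A_de c i (fun _ => A c fun l => h j l)
  simp only [A2, h2, A_mul, A_mul']

lemma d_il (h : Fin n → Fin n → ℝ) :
    A4 c (fun i j k l => de i l * h j k) = A c c * A2 c h := by
  have h2 : ∀ i j k, A c (fun l => de i l * h j k) = c i * h j k :=
    fun i j k => A_de c i (fun _ => h j k)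
  simp only [A4, A2, h2, A_mul, A_mul']

lemma d_jl (h : Fin n → Fin n → ℝ) :
    A4 c (fun i j k l => de j l * h i k) = A c c * A2 c h := by
  have h2 : ∀ i j k, A c (fun l => de j l * h i k) = c j * h i k :=
    fun i j k => A_de c j (fun _ => h i k)
  simp only [A4, A2, h2, A_mul, A_mul']

lemma d_jk (h : Fin n → Fin n → ℝ) :
    A4 c (fun i j k l => de j k * h i l) = A c c * A2 c h := by
  have h1 : A4 c (fun i j k l => de j k * h i l) =
      A c fun i => A c fun j => A c fun k => de j k * A c fun l => h i l := by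
    simp only [A4, A_mul]
  rw [h1]
  have h2 : ∀ i j, A c (fun k => de j k * A c fun l => h i l) = c j * A c fun l => h i l :=
    fun i j => A_de c j (fun _ => A c fun l => h i l)
  simp only [A2, h2, A_mul, A_mul']

variable {W : Type} [NormedAddCommGroup W] [InnerProductSpace ℝ W]

lemma A_inner (f : Fin n → W) (w : W) : A c (fun i => ⟪f i, w⟫_ℝ) = ⟪∑ i, c i • f i, w⟫_ℝ := by
  rw [sum_inner]
  exact sum_congr rfl fun i _ => by rw [real_inner_smul_left]

lemma A_inner' (f : Fin n → W) (w : W) : A c (fun i => ⟪w, f i⟫_ℝ) = ⟪w, ∑ i, c i • f i⟫_ℝ := by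
  rw [inner_sum]
  exact sum_congr rfl fun i _ => by rw [real_inner_smul_right]

variable {ρ : Perm (Fin n) →* (W →ₗ[ℝ] W)} (hρ : Uni ρ) (v : W)

include hρ

lemma mc_inv (g : Perm (Fin n)) : mc ρ v g⁻¹ = mc ρ v g := by
  unfold mc
  rw [← hρ g (ρ g⁻¹ v) v, ← Module.End.mul_apply, ← map_mul, mul_inv_cancel, map_one,
    Module.End.one_apply, real_inner_comm]

lemma mc_swap2 (i j k l : Fin n) : mc ρ v (swap i j * swap k l) =
    ⟪ρ (swap k l) v, ρ (swap i j) v⟫_ℝ := by
  unfold mc
  rw [← hρ (swap i j) (ρ (swap i j * swap k l) v) v, ← Module.End.mul_apply, ← map_mul,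
    ← mul_assoc, swap_mul_self, one_mul]

lemma f_sum : A4 c (fun i j k l => mc ρ v (swap i j * swap k l)) =
    ‖∑ i, ∑ j, (c i * c j) • ρ (swap i j) v‖ ^ 2 := by
  have e : (∑ i, ∑ j, (c i * c j) • ρ (swap i j) v) =
      ∑ i, c i • ∑ j, c j • ρ (swap i j) v := by
    refine sum_congr rfl fun i _ => ?_
    rw [smul_sum]
    exact sum_congr rfl fun j _ => by rw [smul_smul]
  simp only [A4, mc_swap2 hρ, A_inner, A_inner']
  rw [← real_inner_self_eq_norm_sq, e]

theorem sum4 (hc : ∑ i, c i = 0) :
    ∑ i, ∑ j, ∑ k, ∑ l, (if dist4 i j k l then c i * c j * c k * c l * QQ (mc ρ v) i j k l else 0) =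
      6 * ‖∑ i, ∑ j, (c i * c j) • ρ (swap i j) v‖ ^ 2 -
        12 * (∑ i, c i ^ 2) * ∑ i, ∑ j, c i * c j * mc ρ v (swap i j) := by
  have hL : ∑ i, ∑ j, ∑ k, ∑ l,
      (if dist4 i j k l then c i * c j * c k * c l * QQ (mc ρ v) i j k l else 0) =
      A4 c (fun i j k l => if dist4 i j k l then QQ (mc ρ v) i j k l else 0) := by
    simp only [A4, A, mul_sum]
    refine sum_congr rfl fun i _ => sum_congr rfl fun j _ => sum_congr rfl fun k _ =>
      sum_congr rfl fun l _ => ?_
    split_ifs
    · ring
    · ring
  have hS : ∑ i, ∑ j, c i * c j * mc ρ v (swap i j) = A2 c fun i j => mc ρ v (swap i j) := by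
    simp only [A2, A, mul_sum]
    exact sum_congr rfl fun i _ => sum_congr rfl fun j _ => by ring
  have hcc : ∑ i, c i ^ 2 = A c c := by
    simp only [A, sq]
  rw [hL, hS, hcc]
  simp only [pointwise (mc ρ v) (mc_inv hρ v)]
  set φ := mc ρ v with hφ
  set X := A2 c fun i j => φ (swap i j) with hX
  set V := ‖∑ i, ∑ j, (c i * c j) • ρ (swap i j) v‖ ^ 2 with hV
  have A0 : ∀ x : ℝ, A c (fun _ => x) = 0 := A_const c hc
  have hA2 : A2 c (fun i j => 2 * φ (swap i j) + 2 * φ 1) = 2 * X := by
    simp only [A2, A_add, A_mul, A0, add_zero]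
    rw [hX, A2]
  have f1 : A4 c (fun i j k l => φ (swap i j * swap k l)) = V := f_sum c hρ v
  have f2 : A4 c (fun i j k l => φ (swap i k * swap j l)) = V := by
    rw [← f1]
    simp only [A4]
    congr 1
    funext i
    exact A_comm c (fun j k => A c fun l => φ (swap i k * swap j l))
  have f3 : A4 c (fun i j k l => φ (swap i l * swap j k)) = V := by
    rw [← f1]
    simp only [A4]
    congr 1
    funext i
    have g1 : (A c fun j => A c fun k => A c fun l => φ (swap i l * swap j k)) =
        A c fun j => A c fun l => A c fun k => φ (swap i l * swap j k) := by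
      congr 1
      funext j
      exact A_comm c (fun k l => φ (swap i l * swap j k))
    rw [g1]
    exact A_comm c (fun j l => A c fun k => φ (swap i l * swap j k))
  have y1 : A4 c (fun i j k l => y3 φ i j k) = 0 := by simp only [A4, A0]
  have y2 : A4 c (fun i j k l => y3 φ i j l) = 0 := by simp only [A4, A0]
  have y4 : A4 c (fun i j k l => y3 φ i k l) = 0 := by simp only [A4, A0]
  have y5 : A4 c (fun i j k l => y3 φ j k l) = 0 := by simp only [A4, A0]
  have t0 : A4 c (fun i j k l => 2 * φ 1) = 0 := by simp only [A4, A0]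
  have t1 : A4 c (fun i j k l => de i j * de j k) = 0 := by simp only [A4, A0]
  have t2 : A4 c (fun i j k l => de i j * de j l) = 0 := by simp only [A4, A0]
  have t3 : A4 c (fun i j k l => de i k * de k l) = 0 := by simp only [A4, A0]
  have t4 : A4 c (fun i j k l => de j k * de k l) = 0 := by simp only [A4, A0]
  simp only [A4_add, A4_sub, A4_mul, t0, f1, f2, f3, y1, y2, y4, y5, t1, t2, t3, t4,
    d_ij c (fun i j => 2 * φ (swap i j) + 2 * φ 1), d_ik c (fun i j => 2 * φ (swap i j) + 2 * φ 1),
    d_il c (fun i j => 2 * φ (swap i j) + 2 * φ 1), d_jk c (fun i j => 2 * φ (swap i j) + 2 * φ 1),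
    d_jl c (fun i j => 2 * φ (swap i j) + 2 * φ 1), d_kl c (fun i j => 2 * φ (swap i j) + 2 * φ 1),
    hA2]
  ring

end main

theorem sumStm : SumStm := fun _ _ _ _ _ hρ v c hc => sum4 c hρ v hc

end Q98.OC
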